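import Pool.Agent.P.MP_5517c4_pr.Cca.Ck
import Pool.Agent.P.MP_5517c4_pr.Cca.A45.D0
import Pool.Agent.P.MP_5517c4_pr.Cca.A45.D1
import Pool.Agent.P.MP_5517c4_pr.Cca.A45.D2
import Pool.Agent.P.MP_5517c4_pr.Cca.A45.D3

set_option autoImplicit false
set_option maxRecDepth 100000
set_option linter.all false

namespace Pool.Agent.P.MP_5517c4_pr.Cca.A45

noncomputable def rt : DT :=
(.N (nat_lit 0x100000009e3779b1)
(.N (nat_lit 0xd1b71763c6ef362)
(.N (nat_lit 0xc5438e8daa66d13)
t0_0 t4_0 t0_4 t4_4) (.N (nat_lit 0xc73892f740f730)
t2_0 t6_0 t2_4 t6_4) (.N (nat_lit 0x67a5fc85f5a3397)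
t0_2 t4_2 t0_6 t4_6) (.N (nat_lit 0x6a111b296b61202)
t2_2 t6_2 t2_6 t6_6)) (.N (nat_lit 0x2e48e8b992adc7f)
(.N (nat_lit 0x267e7ee37625630)
t1_0 t5_0 t1_4 t5_4) (.N (nat_lit 0x7ca69e2273f5e1)
t3_0 t7_0 t3_4 t7_4) (.N (nat_lit 0x13bc657b6255620)
t1_2 t5_2 t1_6 t5_6) (.N (nat_lit 0x1a8c83534d630e3)
t3_2 t7_2 t3_6 t7_6)) (.N (nat_lit 0x68db8bb57fd1642)
(.N (nat_lit 0x67a5fc8f6348ff3)
t0_1 t4_1 .o .o) (.N (nat_lit 0x1358f511a39e1c)
t2_1 t6_1 t2_5 t6_5) (.N (nat_lit 0x57257bfd44b4bb5)
t0_3 t4_3 t0_7 t4_7) (.N (nat_lit 0x11b60fe0ba72a20)
t2_3 t6_3 t2_7 t6_7)) (.N (nat_lit 0x97247460e1bf49d)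
(.N (nat_lit 0x7c97f13ac536e4e)
t1_1 t5_1 t1_5 t5_5) (.N (nat_lit 0x1a8c8350395db2b)
t3_1 t7_1 .o .o) (.N (nat_lit 0x3eedf27bf513dfe)
t1_3 t5_3 t1_7 t5_7) (.N (nat_lit 0x58368223e0218c1)
t3_3 t7_3 t3_7 t7_7)))

noncomputable def ce : Ce :=
  ⟨nat_lit 5, nat_lit 4, nat_lit 9, nat_lit 12089258196146291747061760000, nat_lit 123, nat_lit 0xa00000000000000000000000200000000000a00000a04a49300000000000000000000000200000000000100000900129200000000004a00000a29249200100a04a49209249249249b00000000000000000000000a00000000000a00001204a49300000000000a00000104a49200105204a4920524924934db00000000004a00000a05249300000a00a4922924934936db0010520524930524924936db05249b4936dc49b6dc6dc924,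
  nat_lit 0xfffffffcfffcfc80fffcfe80e8808000fff8fc80fcc00000e880800080000000, nat_lit 0x444444444444444433333333333333333333333333333333333333333333334633333333333333333333333333333335333333333333334533333345244555573333333333333333333333333333333533333333333333343333334422244555333333333333344533333345455555553334334524455555255555555555556633333333333333333333333333333345333333333333334533333355244555563333333333333345333333342445555533343455244555552355555555565666333333333333344533333345245555563333334522455555355555565556666633343455245555562355555555566666234444664446666744666667666777774444444444444444333333333333333333333333333333333333333333333333333333333333333333333333333333333333333333333333333333332222222233333333333333333333333333333333333333333333333333333333222222223333333333333333333333332222222233333333222222222222222222222222333333333333333333333333333333333333333333333333333333332222222233333333333333333333333322222222333333332222222222222222222222223333333333333333333333332222222233333333222222222222222222222222333333332222222222222222222222222222222222222222222222222222111133333333222222222222222222222222222222222222222222222222222211112222222222222222222222222222111122222222222211112222111111111111222222222222222222222222222211112222222222221111222211111111111122222222222211112222111111111111222211111111111111111111111111002222111111111111111111111111110011111111111111001111110011000000111111111111110011111100110000001111110011000000110000000000000011000000000000000000000000000000000000000000000000000000000000000000000000000000000000000000000000000000000000000000000000000000,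 rt⟩

end Pool.Agent.P.MP_5517c4_pr.Cca.A45
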