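import Pool.Agent.P.MP_5517c4_pr.Cca.Rg
import Pool.Agent.P.MP_5517c4_pr.Cca.A45.Ce

set_option autoImplicit false
set_option maxRecDepth 100000
set_option maxHeartbeats 0

namespace Pool.Agent.P.MP_5517c4_pr.Cca.A45

theorem k0 : Rg ce.ckT 0 4 :=
  (rg 0 1 (by decide +kernel)).app <|
  (rg 1 2 (by decide +kernel)).app <|
  (rg 2 3 (by decide +kernel)).app <|
  rg 3 4 (by decide +kernel)

end Pool.Agent.P.MP_5517c4_pr.Cca.A45
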