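import Pool.Agent.P.MP_5517c4_pr.Cca.Rg
import Pool.Agent.P.MP_5517c4_pr.Cca.A45.Ce

set_option autoImplicit false
set_option maxRecDepth 100000
set_option maxHeartbeats 0

namespace Pool.Agent.P.MP_5517c4_pr.Cca.A45

theorem k1 : Rg ce.ckT 4 10 :=
  (rg 4 5 (by decide +kernel)).app <|
  (rg 5 6 (by decide +kernel)).app <|
  (rg 6 7 (by decide +kernel)).app <|
  (rg 7 8 (by decide +kernel)).app <|
  (rg 8 9 (by decide +kernel)).app <|
  rg 9 10 (by decide +kernel)

end Pool.Agent.P.MP_5517c4_pr.Cca.A45
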