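import Pool.Agent.P.MP_5517c4_pr.Cca.Rg
import Pool.Agent.P.MP_5517c4_pr.Cca.A45.Ce

set_option autoImplicit false
set_option maxRecDepth 100000
set_option maxHeartbeats 0

namespace Pool.Agent.P.MP_5517c4_pr.Cca.A45

theorem k10 : Rg ce.ckT 197 268 :=
  (rg 197 201 (by decide +kernel)).app <|
  (rg 201 209 (by decide +kernel)).app <|
  (rg 209 256 (by decide +kernel)).app <|
  (rg 256 257 (by decide +kernel)).app <|
  (rg 257 258 (by decide +kernel)).app <|
  (rg 258 260 (by decide +kernel)).app <|
  (rg 260 262 (by decide +kernel)).app <|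
  (rg 262 264 (by decide +kernel)).app <|
  (rg 264 266 (by decide +kernel)).app <|
  rg 266 268 (by decide +kernel)

end Pool.Agent.P.MP_5517c4_pr.Cca.A45
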