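import Pool.Agent.P.MP_5517c4_pr.Cca.Rg
import Pool.Agent.P.MP_5517c4_pr.Cca.A45.Ce

set_option autoImplicit false
set_option maxRecDepth 100000
set_option maxHeartbeats 0

namespace Pool.Agent.P.MP_5517c4_pr.Cca.A45

theorem k11 : Rg ce.ckT 268 294 :=
  (rg 268 270 (by decide +kernel)).app <|
  (rg 270 273 (by decide +kernel)).app <|
  (rg 273 275 (by decide +kernel)).app <|
  (rg 275 277 (by decide +kernel)).app <|
  (rg 277 281 (by decide +kernel)).app <|
  (rg 281 288 (by decide +kernel)).app <|
  (rg 288 290 (by decide +kernel)).app <|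
  (rg 290 292 (by decide +kernel)).app <|
  rg 292 294 (by decide +kernel)

end Pool.Agent.P.MP_5517c4_pr.Cca.A45
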