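import Pool.Agent.P.MP_5517c4_pr.Cca.Rg
import Pool.Agent.P.MP_5517c4_pr.Cca.A45.Ce

set_option autoImplicit false
set_option maxRecDepth 100000
set_option maxHeartbeats 0

namespace Pool.Agent.P.MP_5517c4_pr.Cca.A45

theorem k12 : Rg ce.ckT 294 387 :=
  (rg 294 296 (by decide +kernel)).app <|
  (rg 296 304 (by decide +kernel)).app <|
  (rg 304 308 (by decide +kernel)).app <|
  (rg 308 321 (by decide +kernel)).app <|
  (rg 321 323 (by decide +kernel)).app <|
  (rg 323 329 (by decide +kernel)).app <|
  (rg 329 339 (by decide +kernel)).app <|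
  (rg 339 358 (by decide +kernel)).app <|
  (rg 358 384 (by decide +kernel)).app <|
  (rg 384 385 (by decide +kernel)).app <|
  rg 385 387 (by decide +kernel)

end Pool.Agent.P.MP_5517c4_pr.Cca.A45
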