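import Pool.Agent.P.MP_5517c4_pr.Cca.Rg
import Pool.Agent.P.MP_5517c4_pr.Cca.A45.Ce

set_option autoImplicit false
set_option maxRecDepth 100000
set_option maxHeartbeats 0

namespace Pool.Agent.P.MP_5517c4_pr.Cca.A45

theorem k13 : Rg ce.ckT 387 (2 ^ ce.T) ∧
    Rg (ce.ckL (7 + 1)) 0 88 :=
  ⟨(rg 387 389 (by decide +kernel)).app <|
  (rg 389 393 (by decide +kernel)).app <|
  (rg 393 401 (by decide +kernel)).app <|
  (rg 401 416 (by decide +kernel)).app <|
  (rg 416 448 (by decide +kernel)).app <|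
  (rg 448 457 (by decide +kernel)).app <|
  rg 457 (2 ^ ce.T) (by decide +kernel),
  (rg 0 24 (by decide +kernel)).app <|
  (rg 24 56 (by decide +kernel)).app <|
  rg 56 88 (by decide +kernel)⟩

end Pool.Agent.P.MP_5517c4_pr.Cca.A45
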