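import Pool.Agent.P.MP_5517c4_pr.Cca.Rg
import Pool.Agent.P.MP_5517c4_pr.Cca.A45.Ce

set_option autoImplicit false
set_option maxRecDepth 100000
set_option maxHeartbeats 0

namespace Pool.Agent.P.MP_5517c4_pr.Cca.A45

theorem k2 : Rg ce.ckT 10 18 :=
  (rg 10 11 (by decide +kernel)).app <|
  (rg 11 12 (by decide +kernel)).app <|
  (rg 12 13 (by decide +kernel)).app <|
  (rg 13 14 (by decide +kernel)).app <|
  (rg 14 16 (by decide +kernel)).app <|
  (rg 16 17 (by decide +kernel)).app <|
  rg 17 18 (by decide +kernel)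

end Pool.Agent.P.MP_5517c4_pr.Cca.A45
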