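import Pool.Agent.P.MP_5517c4_pr.Cca.Rg
import Pool.Agent.P.MP_5517c4_pr.Cca.A45.Ce

set_option autoImplicit false
set_option maxRecDepth 100000
set_option maxHeartbeats 0

namespace Pool.Agent.P.MP_5517c4_pr.Cca.A45

theorem k3 : Rg ce.ckT 18 30 :=
  (rg 18 19 (by decide +kernel)).app <|
  (rg 19 20 (by decide +kernel)).app <|
  (rg 20 21 (by decide +kernel)).app <|
  (rg 21 23 (by decide +kernel)).app <|
  (rg 23 24 (by decide +kernel)).app <|
  (rg 24 25 (by decide +kernel)).app <|
  (rg 25 26 (by decide +kernel)).app <|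
  (rg 26 28 (by decide +kernel)).app <|
  rg 28 30 (by decide +kernel)

end Pool.Agent.P.MP_5517c4_pr.Cca.A45
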