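import Pool.Agent.P.MP_5517c4_pr.Cca.Rg
import Pool.Agent.P.MP_5517c4_pr.Cca.A45.Ce

set_option autoImplicit false
set_option maxRecDepth 100000
set_option maxHeartbeats 0

namespace Pool.Agent.P.MP_5517c4_pr.Cca.A45

theorem k4 : Rg ce.ckT 30 45 :=
  (rg 30 33 (by decide +kernel)).app <|
  (rg 33 34 (by decide +kernel)).app <|
  (rg 34 35 (by decide +kernel)).app <|
  (rg 35 36 (by decide +kernel)).app <|
  (rg 36 37 (by decide +kernel)).app <|
  (rg 37 39 (by decide +kernel)).app <|
  (rg 39 41 (by decide +kernel)).app <|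
  (rg 41 43 (by decide +kernel)).app <|
  rg 43 45 (by decide +kernel)

end Pool.Agent.P.MP_5517c4_pr.Cca.A45
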