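import Pool.Agent.P.MP_5517c4_pr.Cca.Rg
import Pool.Agent.P.MP_5517c4_pr.Cca.A45.Ce

set_option autoImplicit false
set_option maxRecDepth 100000
set_option maxHeartbeats 0

namespace Pool.Agent.P.MP_5517c4_pr.Cca.A45

theorem k5 : Rg ce.ckT 45 68 :=
  (rg 45 48 (by decide +kernel)).app <|
  (rg 48 49 (by decide +kernel)).app <|
  (rg 49 51 (by decide +kernel)).app <|
  (rg 51 53 (by decide +kernel)).app <|
  (rg 53 56 (by decide +kernel)).app <|
  (rg 56 58 (by decide +kernel)).app <|
  (rg 58 64 (by decide +kernel)).app <|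
  (rg 64 65 (by decide +kernel)).app <|
  (rg 65 66 (by decide +kernel)).app <|
  (rg 66 67 (by decide +kernel)).app <|
  rg 67 68 (by decide +kernel)

end Pool.Agent.P.MP_5517c4_pr.Cca.A45
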