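import Pool.Agent.P.MP_5517c4_pr.Cca.Rg
import Pool.Agent.P.MP_5517c4_pr.Cca.A45.Ce

set_option autoImplicit false
set_option maxRecDepth 100000
set_option maxHeartbeats 0

namespace Pool.Agent.P.MP_5517c4_pr.Cca.A45

theorem k6 : Rg ce.ckT 68 84 :=
  (rg 68 69 (by decide +kernel)).app <|
  (rg 69 71 (by decide +kernel)).app <|
  (rg 71 72 (by decide +kernel)).app <|
  (rg 72 73 (by decide +kernel)).app <|
  (rg 73 75 (by decide +kernel)).app <|
  (rg 75 77 (by decide +kernel)).app <|
  (rg 77 79 (by decide +kernel)).app <|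
  (rg 79 82 (by decide +kernel)).app <|
  rg 82 84 (by decide +kernel)

end Pool.Agent.P.MP_5517c4_pr.Cca.A45
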