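import Pool.Agent.P.MP_5517c4_pr.Cca.Rg
import Pool.Agent.P.MP_5517c4_pr.Cca.A45.Ce

set_option autoImplicit false
set_option maxRecDepth 100000
set_option maxHeartbeats 0

namespace Pool.Agent.P.MP_5517c4_pr.Cca.A45

theorem k7 : Rg ce.ckT 84 131 :=
  (rg 84 88 (by decide +kernel)).app <|
  (rg 88 96 (by decide +kernel)).app <|
  (rg 96 97 (by decide +kernel)).app <|
  (rg 97 99 (by decide +kernel)).app <|
  (rg 99 101 (by decide +kernel)).app <|
  (rg 101 104 (by decide +kernel)).app <|
  (rg 104 112 (by decide +kernel)).app <|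
  (rg 112 128 (by decide +kernel)).app <|
  (rg 128 129 (by decide +kernel)).app <|
  (rg 129 130 (by decide +kernel)).app <|
  rg 130 131 (by decide +kernel)

end Pool.Agent.P.MP_5517c4_pr.Cca.A45
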