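import Pool.Agent.P.MP_5517c4_pr.Cca.Rg
import Pool.Agent.P.MP_5517c4_pr.Cca.A45.Ce

set_option autoImplicit false
set_option maxRecDepth 100000
set_option maxHeartbeats 0

namespace Pool.Agent.P.MP_5517c4_pr.Cca.A45

theorem k8 : Rg ce.ckT 131 152 :=
  (rg 131 132 (by decide +kernel)).app <|
  (rg 132 133 (by decide +kernel)).app <|
  (rg 133 135 (by decide +kernel)).app <|
  (rg 135 137 (by decide +kernel)).app <|
  (rg 137 139 (by decide +kernel)).app <|
  (rg 139 141 (by decide +kernel)).app <|
  (rg 141 144 (by decide +kernel)).app <|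
  (rg 144 146 (by decide +kernel)).app <|
  (rg 146 148 (by decide +kernel)).app <|
  rg 148 152 (by decide +kernel)

end Pool.Agent.P.MP_5517c4_pr.Cca.A45
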