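import Pool.Agent.P.MP_5517c4_pr.Cca.Rg
import Pool.Agent.P.MP_5517c4_pr.Cca.A45.Ce

set_option autoImplicit false
set_option maxRecDepth 100000
set_option maxHeartbeats 0

namespace Pool.Agent.P.MP_5517c4_pr.Cca.A45

theorem k9 : Rg ce.ckT 152 197 :=
  (rg 152 154 (by decide +kernel)).app <|
  (rg 154 161 (by decide +kernel)).app <|
  (rg 161 163 (by decide +kernel)).app <|
  (rg 163 165 (by decide +kernel)).app <|
  (rg 165 176 (by decide +kernel)).app <|
  (rg 176 192 (by decide +kernel)).app <|
  (rg 192 193 (by decide +kernel)).app <|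
  (rg 193 195 (by decide +kernel)).app <|
  rg 195 197 (by decide +kernel)

end Pool.Agent.P.MP_5517c4_pr.Cca.A45
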